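import Pool.Agent.H164Z.LoadMain

/-!
# Loading the three-neuron network with sigmoid hidden neurons is NP-hard

Reduction from 3SAT through two-colouring of triples.  Every vertex gets thirteen coordinates.
The zero vector is positive, every nonempty set of copies of one vertex is negative, and every set
of copies of the three vertices of a triple that meets all three groups is positive; seven further
examples live on three extra coordinates.  After making the output weights nonnegative, the
positive region in the plane of the hidden activations is convex, has a convex complement, or is
`U (r V + s) ≥ p V + q` in exponential coordinates.  The second case is excluded by the extra
examples; in the first and third case the signs of the weights give a proper colouring.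
-/

namespace Pool.Agent.Results.MP_52a6f5_lc.LoadingNPHard

open Pool.Agent.NPC Pool.Agent.H164Z.Load

/-- The loading problem for the network with two standard sigmoid hidden neurons and a perceptron
output neuron, with arbitrary real weights, is NP-hard. -/
theorem result : NPHardP Loading := npHard_loading

end Pool.Agent.Results.MP_52a6f5_lc.LoadingNPHard
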